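import Mathlib

/-!
# Competing urn schemes on finite graphs: definitions and a Lyapunov lemma
-/

namespace Pool.Agent.R815.Urn

open Finset MeasureTheory ProbabilityTheory

/-- Content of an urn: a type label and a number of balls.  All balls of the urn have the type of
the label; the label of an empty urn has no meaning. -/
abbrev Urn (K : ℕ) : Type := Fin K × ℕ

/-- Content of an urn after one new ball of type `j` has arrived: it is added if the urn is empty
or has type `j`, otherwise it annihilates with one of the balls of the urn. -/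
def receive {K : ℕ} (j : Fin K) (u : Urn K) : Urn K :=
  if u.2 = 0 then (j, 1) else if u.1 = j then (u.1, u.2 + 1) else (u.1, u.2 - 1)

/-- Configuration after a nucleation at the vertex `v` (one new ball of the type of `v` is sent to
every neighbour of `v`). -/
def nucleate {V : Type} {K : ℕ} (G : SimpleGraph V) [DecidableRel G.Adj] (x : V → Urn K) (v : V) :
    V → Urn K :=
  fun u => if G.Adj v u then receive (x v).1 (x u) else x u

/-- Total number of balls. -/
def total {V : Type} [Fintype V] {K : ℕ} (x : V → Urn K) : ℕ := ∑ v, (x v).2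

/-- Type `j` is present in the configuration. -/
def Present {V : Type} {K : ℕ} (j : Fin K) (x : V → Urn K) : Prop :=
  ∃ v, (x v).1 = j ∧ 0 < (x v).2

/-- Configuration after `n` nucleations, at the vertices `a 0, a 1, ..., a (n-1)`. -/
def conf {V : Type} {K : ℕ} (G : SimpleGraph V) [DecidableRel G.Adj] (x0 : V → Urn K)
    (a : ℕ → V) : ℕ → (V → Urn K)
  | 0 => x0
  | n + 1 => nucleate G (conf G x0 a n) (a n)

/-- Proportion of the balls that are at `v`: the probability that the next nucleation is at `v`,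
as all clocks have rate 1. -/
noncomputable def wt {V : Type} [Fintype V] {K : ℕ} (x : V → Urn K) (v : V) : ℝ :=
  ((x v).2 : ℝ) / (total x : ℝ)

/-- Time of the `n`-th nucleation, when the nucleations are at `a 0, a 1, ...` and the waiting
times are `e k / (number of balls)`. -/
noncomputable def jumpTime {V : Type} [Fintype V] {K : ℕ} (G : SimpleGraph V)
    [DecidableRel G.Adj] (x0 : V → Urn K) (a : ℕ → V) (e : ℕ → ℝ) (n : ℕ) : ℝ :=
  ∑ k ∈ range n, e k / (total (conf G x0 a k) : ℝ)

/-- Jump chain / holding time description of the competing urn scheme on `G` started from `x0`: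
`v n` is the vertex of the nucleation number `n + 1`, `e n / (number of balls)` the waiting time
before it.  Given the past the nucleation is at a uniformly random ball, and the `e n` are
independent standard exponential variables, independent of all `v n`. -/
structure IsUrnScheme {V : Type} [Fintype V] {K : ℕ} (G : SimpleGraph V) [DecidableRel G.Adj]
    (x0 : V → Urn K) {Ω : Type} [MeasurableSpace Ω] (μ : Measure Ω) (v : ℕ → Ω → V)
    (e : ℕ → Ω → ℝ) : Prop where
  meas_v : ∀ n, @Measurable Ω V _ ⊤ (v n)
  meas_e : ∀ n, Measurable (e n)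
  sites : ∀ (n : ℕ) (a : ℕ → V), μ {ω | ∀ k < n, v k ω = a k}
    = ∏ k ∈ range n, ENNReal.ofReal (wt (conf G x0 a k) (a k))
  exp_law : ∀ n, μ.map (e n) = expMeasure 1
  indep_e : iIndepFun e μ
  indep_ve : @IndepFun Ω (ℕ → V) (ℕ → ℝ) _ (@MeasurableSpace.pi ℕ (fun _ => V) (fun _ => ⊤)) _
    (fun ω n => v n ω) (fun ω n => e n ω) μ

lemma conf_congr {V : Type} {K : ℕ} (G : SimpleGraph V) [DecidableRel G.Adj] (x0 : V → Urn K)
    {a b : ℕ → V} {n : ℕ} (h : ∀ k < n, a k = b k) : conf G x0 a n = conf G x0 b n := by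
  induction n with
  | zero => rfl
  | succ n ih =>
    simp only [conf]
    rw [ih (fun k hk => h k (by omega)), h n (by omega)]

section finite

variable {V : Type} [Fintype V] {K : ℕ} (G : SimpleGraph V) [DecidableRel G.Adj]
  (x0 : V → Urn K) (F : (V → Urn K) → ℝ) (f0 : ℝ)

/-- configuration after the nucleations of a finite sequence -/
def confF : (n : ℕ) → (Fin n → V) → (V → Urn K)
  | 0, _ => x0
  | n + 1, a => nucleate G (confF n (Fin.init a)) (a (Fin.last n))

/-- probability of a finite sequence of nucleation sites -/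
noncomputable def WF : (n : ℕ) → (Fin n → V) → ℝ
  | 0, _ => 1
  | n + 1, a => WF n (Fin.init a) * wt (confF G x0 n (Fin.init a)) (a (Fin.last n))

/-- all the configurations before the last one are below the level -/
def AF : (n : ℕ) → (Fin n → V) → Prop
  | 0, _ => True
  | n + 1, a => AF n (Fin.init a) ∧ F (confF G x0 n (Fin.init a)) < f0

open Classical in
/-- killed expectation -/
noncomputable def KF (n : ℕ) (f : (V → Urn K) → ℝ) : ℝ :=
  ∑ a : Fin n → V, if AF G x0 F f0 n a then WF G x0 n a * f (confF G x0 n a) else 0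

lemma wt_nonneg (x : V → Urn K) (v : V) : 0 ≤ wt x v := by
  unfold wt; positivity

lemma sum_wt {x : V → Urn K} (h : 0 < total x) : ∑ v, wt x v = 1 := by
  unfold wt
  rw [← Finset.sum_div]
  have h' : (0 : ℝ) < (total x : ℝ) := by exact_mod_cast h
  rw [div_eq_one_iff_eq h'.ne']
  unfold total
  push_cast
  rfl

lemma WF_nonneg (n : ℕ) (a : Fin n → V) : 0 ≤ WF G x0 n a := by
  induction n with
  | zero => simp [WF]
  | succ n ih => exact mul_nonneg (ih _) (wt_nonneg _ _)

lemma KF_zero (f : (V → Urn K) → ℝ) : KF G x0 F f0 0 f = f x0 := by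
  classical
  simp [KF, AF, WF, confF]

open Classical in
lemma KF_succ (n : ℕ) (f : (V → Urn K) → ℝ) :
    KF G x0 F f0 (n + 1) f = KF G x0 F f0 n
      (fun x => if F x < f0 then ∑ v, wt x v * f (nucleate G x v) else 0) := by
  unfold KF
  have e := (Fin.snocEquiv (fun _ : Fin (n + 1) => V)).sum_comp
    (fun a : Fin (n + 1) → V =>
      if AF G x0 F f0 (n + 1) a then WF G x0 (n + 1) a * f (confF G x0 (n + 1) a) else 0)
  rw [← e, Fintype.sum_prod_type_right]
  apply Finset.sum_congr rfl
  intro a _
  simp only [Fin.snocEquiv, Equiv.coe_fn_mk, AF, WF, confF, Fin.init_snoc, Fin.snoc_last]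
  by_cases h1 : AF G x0 F f0 n a
  · by_cases h2 : F (confF G x0 n a) < f0
    · simp only [h1, h2, and_self, if_true]
      rw [Finset.mul_sum]
      apply Finset.sum_congr rfl
      intro v _
      ring
    · simp [h1, h2]
  · simp [h1]

lemma KF_mono (n : ℕ) {f g : (V → Urn K) → ℝ} (h : ∀ x, f x ≤ g x) :
    KF G x0 F f0 n f ≤ KF G x0 F f0 n g := by
  classical
  unfold KF
  apply Finset.sum_le_sum
  intro a _
  split_ifs
  · exact mul_le_mul_of_nonneg_left (h _) (WF_nonneg G x0 n a)
  · exact le_rfl

lemma KF_add (n : ℕ) (f g : (V → Urn K) → ℝ) :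
    KF G x0 F f0 n (fun x => f x + g x) = KF G x0 F f0 n f + KF G x0 F f0 n g := by
  classical
  unfold KF
  rw [← Finset.sum_add_distrib]
  apply Finset.sum_congr rfl
  intro a _
  split_ifs <;> ring

lemma KF_mul (n : ℕ) (c : ℝ) (f : (V → Urn K) → ℝ) :
    KF G x0 F f0 n (fun x => c * f x) = c * KF G x0 F f0 n f := by
  classical
  unfold KF
  rw [Finset.mul_sum]
  apply Finset.sum_congr rfl
  intro a _
  split_ifs <;> ring

/-- Supermartingale estimate for the killed chain. -/
lemma KF_lyap (hf0 : 0 < f0) (hF : ∀ x, 0 ≤ F x) (ht : ∀ x, F x < f0 → 0 < total x)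
    (hs : ∀ x, F x < f0 → ∑ v, wt x v * F (nucleate G x v) ≤ F x) (n : ℕ) :
    KF G x0 F f0 n F + f0 * (1 - KF G x0 F f0 n (fun _ => 1)) ≤ F x0 := by
  classical
  induction n with
  | zero =>
    rw [KF_zero, KF_zero]
    linarith
  | succ n ih =>
    rw [KF_succ, KF_succ]
    have h1 : KF G x0 F f0 n
        (fun x => if F x < f0 then ∑ v, wt x v * F (nucleate G x v) else 0)
        + f0 * KF G x0 F f0 n (fun _ => 1)
        ≤ KF G x0 F f0 n F + f0 * KF G x0 F f0 n
          (fun x => if F x < f0 then ∑ v, wt x v * (fun _ => (1 : ℝ)) (nucleate G x v) else 0) := by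
      rw [← KF_mul, ← KF_mul, ← KF_add, ← KF_add]
      apply KF_mono
      intro x
      by_cases h : F x < f0
      · simp only [h, if_true, mul_one]
        rw [sum_wt (ht x h)]
        have := hs x h
        linarith
      · simp only [h, if_false, mul_one, mul_zero, add_zero, zero_add]
        exact not_lt.mp h
    linarith

lemma KF_one_ge (hf0 : 0 < f0) (hF : ∀ x, 0 ≤ F x) (ht : ∀ x, F x < f0 → 0 < total x)
    (hs : ∀ x, F x < f0 → ∑ v, wt x v * F (nucleate G x v) ≤ F x) (n : ℕ) :
    1 - F x0 / f0 ≤ KF G x0 F f0 n (fun _ => 1) := by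
  have h1 := KF_lyap G x0 F f0 hf0 hF ht hs n
  have h2 : 0 ≤ KF G x0 F f0 n F := by
    have := KF_mono G x0 F f0 n hF
    have h0 : KF G x0 F f0 n (fun _ => 0) = 0 := by
      unfold KF; simp
    linarith
  have h3 : 1 - KF G x0 F f0 n (fun _ => 1) ≤ F x0 / f0 := by
    rw [le_div_iff₀ hf0]
    linarith
  linarith

end finite

section prob

variable {V : Type} [Fintype V] {K : ℕ} (G : SimpleGraph V) [DecidableRel G.Adj]
  (x0 : V → Urn K)

lemma confF_eq_conf (n : ℕ) (a : ℕ → V) :
    confF G x0 n (fun k : Fin n => a k) = conf G x0 a n := by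
  induction n with
  | zero => rfl
  | succ n ih =>
    simp only [confF, conf, Fin.val_last]
    rw [← ih]
    rfl

lemma WF_eq_prod (n : ℕ) (a : ℕ → V) :
    WF G x0 n (fun k : Fin n => a k) = ∏ k ∈ range n, wt (conf G x0 a k) (a k) := by
  induction n with
  | zero => rfl
  | succ n ih =>
    rw [Finset.prod_range_succ, ← ih]
    simp only [WF, Fin.val_last]
    rw [← confF_eq_conf]
    rfl

lemma AF_iff (F : (V → Urn K) → ℝ) (f0 : ℝ) (n : ℕ) (a : ℕ → V) :
    AF G x0 F f0 n (fun k : Fin n => a k) ↔ ∀ k < n, F (conf G x0 a k) < f0 := by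
  induction n with
  | zero => simp [AF]
  | succ n ih =>
    have h : AF G x0 F f0 (n + 1) (fun k : Fin (n + 1) => a k)
        ↔ AF G x0 F f0 n (fun k : Fin n => a k)
          ∧ F (confF G x0 n (fun k : Fin n => a k)) < f0 := Iff.rfl
    rw [h, ih, confF_eq_conf]
    constructor
    · rintro ⟨h1, h2⟩ k hk
      rcases Nat.lt_succ_iff_lt_or_eq.mp hk with h | h
      · exact h1 k h
      · rw [h]; exact h2
    · intro h
      exact ⟨fun k hk => h k (by omega), h n (by omega)⟩

variable {Ω : Type} [MeasurableSpace Ω] {μ : Measure Ω} {v : ℕ → Ω → V} {e : ℕ → Ω → ℝ}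

lemma measurableSet_site (h : IsUrnScheme G x0 μ v e) (k : ℕ) (b : V) :
    MeasurableSet {ω | v k ω = b} := by
  have := h.meas_v k
  exact @this {b} trivial

lemma measurableSet_sites (h : IsUrnScheme G x0 μ v e) (n : ℕ) (a : ℕ → V) :
    MeasurableSet {ω | ∀ k < n, v k ω = a k} := by
  have : {ω | ∀ k < n, v k ω = a k} = ⋂ k ∈ range n, {ω | v k ω = a k} := by
    ext ω; simp
  rw [this]
  exact Finset.measurableSet_biInter _ fun k _ => measurableSet_site G x0 h k (a k)

/-- Probability that the level is not reached before step `n`. -/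
lemma measure_below (h : IsUrnScheme G x0 μ v e) [Nonempty V] (F : (V → Urn K) → ℝ) (f0 : ℝ)
    (n : ℕ) :
    μ {ω | ∀ k < n, F (conf G x0 (fun m => v m ω) k) < f0}
      = ENNReal.ofReal (KF G x0 F f0 n (fun _ => 1)) := by
  classical
  -- extend finite sequences
  let ext : (Fin n → V) → ℕ → V := fun a k => if hk : k < n then a ⟨k, hk⟩ else Classical.arbitrary V
  have hext : ∀ a : Fin n → V, (fun k : Fin n => ext a k) = a := by
    intro a; funext k; simp [ext, k.isLt]
  set S : Finset (Fin n → V) := univ.filter fun a => AF G x0 F f0 n a with hS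
  have h1 : {ω | ∀ k < n, F (conf G x0 (fun m => v m ω) k) < f0}
      = ⋃ a ∈ S, {ω | ∀ k < n, v k ω = ext a k} := by
    ext ω
    simp only [Set.mem_setOf_eq, Set.mem_iUnion, exists_prop]
    constructor
    · intro hω
      refine ⟨fun k : Fin n => v k ω, ?_, ?_⟩
      · rw [hS, Finset.mem_filter]
        exact ⟨Finset.mem_univ _, (AF_iff G x0 F f0 n (fun m => v m ω)).mpr hω⟩
      · intro k hk
        simp [ext, hk]
    · rintro ⟨a, ha, hω⟩ k hk
      rw [hS, Finset.mem_filter] at ha
      have h2 := ha.2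
      rw [← hext a, AF_iff] at h2
      have h3 := h2 k hk
      rw [conf_congr G x0 (b := ext a) (fun m hm => hω m (by omega))]
      exact h3
  rw [h1, measure_biUnion_finset]
  · have h4 : ∀ a ∈ S, μ {ω | ∀ k < n, v k ω = ext a k} = ENNReal.ofReal (WF G x0 n a) := by
      intro a _
      rw [h.sites n (ext a), ← ENNReal.ofReal_prod_of_nonneg (fun k _ => wt_nonneg _ _),
        ← WF_eq_prod, hext]
    rw [Finset.sum_congr rfl h4, ← ENNReal.ofReal_sum_of_nonneg (fun a _ => WF_nonneg G x0 n a)]
    congr 1
    unfold KF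
    simp only [mul_one]
    rw [hS, Finset.sum_filter]
  · intro a ha b hb hab
    rw [Function.onFun, Set.disjoint_left]
    intro ω hω hω'
    apply hab
    funext k
    have h5 := hω k k.isLt
    have h6 := hω' k k.isLt
    rw [h5] at h6
    simpa [ext, k.isLt] using h6
  · intro a _
    exact measurableSet_sites G x0 h n (ext a)

/-- Lyapunov function criterion. -/
theorem lyap [IsProbabilityMeasure μ] (h : IsUrnScheme G x0 μ v e) [Nonempty V]
    (F : (V → Urn K) → ℝ) (f0 : ℝ)
    (hf0 : 0 < f0) (hF : ∀ x, 0 ≤ F x) (ht : ∀ x, F x < f0 → 0 < total x)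
    (hs : ∀ x, F x < f0 → ∑ v, wt x v * F (nucleate G x v) ≤ F x) :
    ENNReal.ofReal (1 - F x0 / f0)
      ≤ μ {ω | ∀ k, F (conf G x0 (fun m => v m ω) k) < f0} := by
  have h1 : {ω | ∀ k, F (conf G x0 (fun m => v m ω) k) < f0}
      = ⋂ n : ℕ, {ω | ∀ k < n, F (conf G x0 (fun m => v m ω) k) < f0} := by
    ext ω
    simp only [Set.mem_setOf_eq, Set.mem_iInter]
    constructor
    · intro hω n k _; exact hω k
    · intro hω k; exact hω (k + 1) k (by omega)
  have hmeas : ∀ n : ℕ, MeasurableSet {ω | ∀ k < n, F (conf G x0 (fun m => v m ω) k) < f0} := by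
    intro n
    classical
    let ext : (Fin n → V) → ℕ → V :=
      fun a k => if hk : k < n then a ⟨k, hk⟩ else Classical.arbitrary V
    have h2 : {ω | ∀ k < n, F (conf G x0 (fun m => v m ω) k) < f0}
        = ⋃ a ∈ (univ.filter fun a : Fin n → V => AF G x0 F f0 n a),
          {ω | ∀ k < n, v k ω = ext a k} := by
      have hext : ∀ a : Fin n → V, (fun k : Fin n => ext a k) = a := by
        intro a; funext k; simp [ext, k.isLt]
      ext ω
      simp only [Set.mem_setOf_eq, Set.mem_iUnion, exists_prop]
      constructor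
      · intro hω
        refine ⟨fun k : Fin n => v k ω, ?_, ?_⟩
        · rw [Finset.mem_filter]
          exact ⟨Finset.mem_univ _, (AF_iff G x0 F f0 n (fun m => v m ω)).mpr hω⟩
        · intro k hk
          simp [ext, hk]
      · rintro ⟨a, ha, hω⟩ k hk
        rw [Finset.mem_filter] at ha
        have h2 := ha.2
        rw [← hext a, AF_iff] at h2
        have h3 := h2 k hk
        rw [conf_congr G x0 (b := ext a) (fun m hm => hω m (by omega))]
        exact h3
    rw [h2]
    exact Finset.measurableSet_biUnion _ fun a _ => measurableSet_sites G x0 h n (ext a)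
  have hanti : Antitone fun n : ℕ => {ω | ∀ k < n, F (conf G x0 (fun m => v m ω) k) < f0} := by
    intro n m hnm ω hω k hk
    exact hω k (by omega)
  rw [h1, hanti.measure_iInter (fun n => (hmeas n).nullMeasurableSet)
    ⟨0, measure_ne_top μ _⟩]
  refine le_iInf fun n => ?_
  rw [measure_below G x0 h F f0 n]
  exact ENNReal.ofReal_le_ofReal (KF_one_ge G x0 F f0 hf0 hF ht hs n)

end prob

end Pool.Agent.R815.Urn
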