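import Pool.Agent.R815.Urn.Defs

/-!
# Competing urn schemes: existence
-/

namespace Pool.Agent.R815.Urn

open Finset MeasureTheory ProbabilityTheory

section

variable {V : Type} [Fintype V] [Nonempty V] {K : ℕ} (G : SimpleGraph V)
  [DecidableRel G.Adj] (x0 : V → Urn K)

/-- configuration of the canonical construction -/
def canY (w : ℕ × (V → Urn K) → V) : ℕ → (V → Urn K)
  | 0 => x0
  | n + 1 => nucleate G (canY w n) (w (n, canY w n))

lemma canY_eq (w : ℕ × (V → Urn K) → V) (n : ℕ) :
    canY G x0 w n = conf G x0 (fun m => w (m, canY G x0 w m)) n := by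
  induction n with
  | zero => rfl
  | succ n ih =>
    simp only [canY, conf]
    rw [← ih]

lemma total_nucleate_pos (x : V → Urn K) (v : V) (h : (x v).2 ≠ 0) :
    0 < total (nucleate G x v) := by
  have h1 : (nucleate G x v v).2 ≤ total (nucleate G x v) :=
    Finset.single_le_sum (f := fun u => (nucleate G x v u).2) (fun _ _ => Nat.zero_le _)
      (Finset.mem_univ v)
  have h2 : nucleate G x v v = x v := by
    unfold nucleate
    rw [if_neg (G.loopless.irrefl v)]
  rw [h2] at h1
  omega

open Classical in
/-- law of the next nucleation site -/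
noncomputable def siteLaw (x : V → Urn K) : @Measure V ⊤ :=
  letI : MeasurableSpace V := ⊤
  if total x = 0 then Measure.dirac (Classical.arbitrary V)
  else ∑ v, ENNReal.ofReal (wt x v) • Measure.dirac v

lemma siteLaw_prob (x : V → Urn K) :
    letI : MeasurableSpace V := ⊤
    IsProbabilityMeasure (siteLaw x) := by
  letI : MeasurableSpace V := ⊤
  constructor
  unfold siteLaw
  by_cases h : total x = 0
  · rw [if_pos h]
    simp
  · rw [if_neg h]
    simp only [Measure.coe_finsetSum, Measure.coe_smul, Finset.sum_apply, Pi.smul_apply,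
      measure_univ, smul_eq_mul, mul_one]
    rw [← ENNReal.ofReal_sum_of_nonneg (fun v _ => wt_nonneg x v), sum_wt (Nat.pos_of_ne_zero h)]
    simp

lemma siteLaw_singleton (x : V → Urn K) (h : total x ≠ 0) (b : V) :
    letI : MeasurableSpace V := ⊤
    siteLaw x {b} = ENNReal.ofReal (wt x b) := by
  classical
  letI : MeasurableSpace V := ⊤
  unfold siteLaw
  rw [if_neg h]
  simp only [Measure.coe_finsetSum, Measure.coe_smul, Finset.sum_apply, Pi.smul_apply,
    smul_eq_mul]
  rw [Finset.sum_eq_single b]
  · rw [Measure.dirac_apply' b trivial]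
    simp
  · intro v _ hv
    rw [Measure.dirac_apply' v trivial]
    simp [hv]
  · simp

lemma prod_siteLaw (h0 : total x0 ≠ 0) (a : ℕ → V) (n : ℕ) :
    letI : MeasurableSpace V := ⊤
    (∏ k ∈ range n, siteLaw (conf G x0 a k) {a k}
      = ∏ k ∈ range n, ENNReal.ofReal (wt (conf G x0 a k) (a k))) ∧
    ((∏ k ∈ range n, siteLaw (conf G x0 a k) {a k}) ≠ 0 → total (conf G x0 a n) ≠ 0) := by
  letI : MeasurableSpace V := ⊤
  induction n with
  | zero => simpa [conf] using h0
  | succ n ih =>
    obtain ⟨ih1, ih2⟩ := ih
    by_cases hz : (∏ k ∈ range n, siteLaw (conf G x0 a k) {a k}) = 0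
    · constructor
      · rw [Finset.prod_range_succ, Finset.prod_range_succ, ← ih1, hz, zero_mul, zero_mul]
      · rw [Finset.prod_range_succ, hz, zero_mul]
        intro h; exact absurd rfl h
    · have h1 := siteLaw_singleton (conf G x0 a n) (ih2 hz) (a n)
      constructor
      · rw [Finset.prod_range_succ, Finset.prod_range_succ, ← ih1, h1]
      · intro h2
        rw [Finset.prod_range_succ, h1] at h2
        have h3 : ENNReal.ofReal (wt (conf G x0 a n) (a n)) ≠ 0 := right_ne_zero_of_mul h2
        have h4 : (conf G x0 a n (a n)).2 ≠ 0 := by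
          intro h5
          apply h3
          unfold wt
          rw [h5]
          simp
        have := total_nucleate_pos G (conf G x0 a n) (a n) h4
        simp only [conf]
        omega

instance : Countable (V → Urn K) := inferInstance

/-- Existence of competing urn schemes. -/
theorem exists_scheme (h0 : total x0 ≠ 0) :
    ∃ (Ω : Type) (_ : MeasurableSpace Ω) (μ : Measure Ω) (_ : IsProbabilityMeasure μ)
      (v : ℕ → Ω → V) (e : ℕ → Ω → ℝ), IsUrnScheme G x0 μ v e := by
  classical
  letI mV : MeasurableSpace V := ⊤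
  have hprob := isProbabilityMeasure_expMeasure (r := 1) one_pos
  have hsite : ∀ x : V → Urn K, IsProbabilityMeasure (siteLaw x) := siteLaw_prob
  let μ1 : Measure (ℕ × (V → Urn K) → V) := Measure.infinitePi fun i => siteLaw i.2
  let μ2 : Measure (ℕ → ℝ) := Measure.infinitePi fun _ => expMeasure 1
  have hμ1 : IsProbabilityMeasure μ1 := inferInstance
  have hμ2 : IsProbabilityMeasure μ2 := inferInstance
  letI mC : MeasurableSpace (V → Urn K) := ⊤
  -- measurability
  have hstep : ∀ n : ℕ, Measurable
      (fun p : (ℕ × (V → Urn K) → V) × (V → Urn K) => p.1 (n, p.2)) := by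
    intro n
    apply measurable_from_prod_countable_left
    intro y
    exact measurable_pi_apply (n, y)
  have hY : ∀ n : ℕ, Measurable (fun w : ℕ × (V → Urn K) → V => canY G x0 w n) := by
    intro n
    induction n with
    | zero => exact measurable_const
    | succ n ih =>
      have h1 : Measurable (fun w : ℕ × (V → Urn K) → V => w (n, canY G x0 w n)) :=
        (hstep n).comp (measurable_id.prodMk ih)
      have h2 : Measurable (fun q : (V → Urn K) × V => nucleate G q.1 q.2) :=
        measurable_of_countable _
      exact h2.comp (ih.prodMk h1)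
  have hv : ∀ n : ℕ, Measurable (fun w : ℕ × (V → Urn K) → V => w (n, canY G x0 w n)) :=
    fun n => (hstep n).comp (measurable_id.prodMk (hY n))
  refine ⟨(ℕ × (V → Urn K) → V) × (ℕ → ℝ), inferInstance, μ1.prod μ2, inferInstance,
    fun n ω => ω.1 (n, canY G x0 ω.1 n), fun n ω => ω.2 n, ?_, ?_, ?_, ?_, ?_, ?_⟩
  · intro n
    exact (hv n).comp measurable_fst
  · intro n
    exact (measurable_pi_apply n).comp measurable_snd
  · intro n a
    have e1 : {ω : (ℕ × (V → Urn K) → V) × (ℕ → ℝ) | ∀ k < n, ω.1 (k, canY G x0 ω.1 k) = a k}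
        = (Set.pi ((range n).image (fun k => (k, conf G x0 a k)) : Finset (ℕ × (V → Urn K)))
            (fun i => {a i.1})) ×ˢ Set.univ := by
      ext ω
      simp only [Set.mem_prod, Set.mem_univ, and_true, Set.mem_pi, Finset.coe_image,
        Set.mem_image, Finset.coe_range, Set.mem_Iio, Set.mem_singleton_iff]
      constructor
      · intro hω i hi
        obtain ⟨k, hk, rfl⟩ := hi
        have h1 : canY G x0 ω.1 k = conf G x0 a k := by
          rw [canY_eq]
          exact conf_congr G x0 (fun m hm => hω m (by omega))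
        simp only
        rw [← h1]
        exact hω k hk
      · intro hω
        have h2 : ∀ k, k ≤ n → canY G x0 ω.1 k = conf G x0 a k := by
          intro k
          induction k with
          | zero => intro _; rfl
          | succ k ih =>
            intro hk
            have h3 := ih (by omega)
            simp only [canY, conf]
            rw [h3]
            have h4 := hω (k, conf G x0 a k) ⟨k, by omega, rfl⟩
            simp only at h4
            rw [h4]
        intro k hk
        show ω.1 (k, canY G x0 ω.1 k) = a k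
        rw [h2 k hk.le]
        exact hω (k, conf G x0 a k) ⟨k, hk, rfl⟩
    rw [e1, Measure.prod_prod, measure_univ, mul_one]
    show Measure.infinitePi (fun i : ℕ × (V → Urn K) => siteLaw i.2) _ = _
    rw [Measure.infinitePi_pi (fun i : ℕ × (V → Urn K) => siteLaw i.2)
      (s := (range n).image (fun k => (k, conf G x0 a k))) (t := fun i => {a i.1})
      (fun i _ => MeasurableSpace.measurableSet_top), Finset.prod_image]
    · exact (prod_siteLaw G x0 h0 a n).1
    · intro k _ k' _ hkk
      exact congrArg Prod.fst hkk
  · intro n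
    have e1 : (fun ω : (ℕ × (V → Urn K) → V) × (ℕ → ℝ) => ω.2 n)
        = (fun w : ℕ → ℝ => w n) ∘ Prod.snd := rfl
    rw [e1, ← Measure.map_map (measurable_pi_apply n) measurable_snd, Measure.map_snd_prod,
      measure_univ, one_smul]
    exact (measurePreserving_eval_infinitePi (fun _ : ℕ => expMeasure 1) n).map_eq
  · have hmm : ∀ n : ℕ, Measurable
        (fun ω : (ℕ × (V → Urn K) → V) × (ℕ → ℝ) => ω.2 n) :=
      fun n => (measurable_pi_apply n).comp measurable_snd
    rw [iIndepFun_iff_map_fun_eq_infinitePi_map hmm]
    have e2 : (fun (ω : (ℕ × (V → Urn K) → V) × (ℕ → ℝ)) (i : ℕ) => ω.2 i) = Prod.snd := rfl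
    have e3 : ∀ n : ℕ, (μ1.prod μ2).map
        (fun ω : (ℕ × (V → Urn K) → V) × (ℕ → ℝ) => ω.2 n) = expMeasure 1 := by
      intro n
      have e1 : (fun ω : (ℕ × (V → Urn K) → V) × (ℕ → ℝ) => ω.2 n)
          = (fun w : ℕ → ℝ => w n) ∘ Prod.snd := rfl
      rw [e1, ← Measure.map_map (measurable_pi_apply n) measurable_snd, Measure.map_snd_prod,
        measure_univ, one_smul]
      exact (measurePreserving_eval_infinitePi (fun _ : ℕ => expMeasure 1) n).map_eq
    rw [e2, Measure.map_snd_prod, measure_univ, one_smul]
    show μ2 = Measure.infinitePi (fun n => (μ1.prod μ2).map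
        (fun ω : (ℕ × (V → Urn K) → V) × (ℕ → ℝ) => ω.2 n))
    simp only [e3]
    rfl
  · exact indepFun_prod (X := fun (w : ℕ × (V → Urn K) → V) (n : ℕ) => w (n, canY G x0 w n))
      (Y := fun w : ℕ → ℝ => fun n => w n) (measurable_pi_lambda _ hv) measurable_id

end

end Pool.Agent.R815.Urn
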