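import Pool.Agent.R815.Urn.Q4

/-!
# The Lyapunov inequality on the 4-dimensional hypercube
-/

namespace Pool.Agent.R815.Urn

open Finset

/-! ## elementary inequalities -/

lemma c_le (c : ℕ) : (c : ℝ) ≤ 2 * (3 / 2 : ℝ) ^ c := by
  have h := one_add_mul_le_pow (a := (1 / 2 : ℝ)) (by norm_num) c
  have e : (1 + 1 / 2 : ℝ) = 3 / 2 := by norm_num
  rw [e] at h
  have : (0 : ℝ) ≤ c := Nat.cast_nonneg c
  linarith

lemma pow_big {c : ℕ} (hc : 100 ≤ c) : (7680 * (c : ℝ)) ^ 2 ≤ (3 / 2 : ℝ) ^ c := by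
  induction c, hc using Nat.le_induction with
  | base => norm_num
  | succ c hc ih =>
    have h1 : (100 : ℝ) ≤ c := by exact_mod_cast hc
    have e : (3 / 2 : ℝ) ^ (c + 1) = (3 / 2 : ℝ) ^ c * (3 / 2) := pow_succ _ _
    rw [e]
    push_cast
    nlinarith

/-- Facts about states with small value of the Lyapunov function. -/
structure Reg (x : Cfg) : Prop where
  lab : Lab x
  M_big : 36000000 ≤ MM x
  B_small : ZZ x + QQ x ≤ MM x * (MM x + 1) / 12544
  n_low : ∀ e b, MM x / 8 - MM x / 112 ≤ nn x e b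
  n_up : ∀ e b, nn x e b ≤ MM x / 8 + MM x / 112
  C_small : CC x ≤ MM x / 960
  C_le : CC x ≤ 2 * TH x
  val : FF x = fl (MM x) (ZZ x + QQ x) (TH x)

lemma reg_of_lt {x : Cfg} (h : FF x < 1 / 12544) : Reg x := by
  classical
  have hL : Lab x := by
    by_contra hcon
    unfold FF at h
    rw [if_neg hcon] at h
    exact lt_irrefl _ h
  have hval : FF x = fl (MM x) (ZZ x + QQ x) (TH x) := by
    unfold FF
    rw [if_pos hL]
  rw [hval] at h
  have hM0 := MM_nonneg x
  have hZ0 := ZZ_nonneg x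
  have hQ0 := QQ_nonneg x
  have hT0 := TH_nonneg x
  set M := MM x with hM
  unfold fl at h
  have h1 : 0 ≤ (ZZ x + QQ x + 960 * TH x) / (M * (M + 1)) := by positivity
  have h2 : 2882 / (M + 1) < 1 / 12544 := by linarith
  have hMbig : 36000000 ≤ M := by
    rw [div_lt_div_iff₀ (by linarith) (by norm_num)] at h2
    linarith
  have h3 : (ZZ x + QQ x + 960 * TH x) / (M * (M + 1)) < 1 / 12544 := by
    have : 0 ≤ 2882 / (M + 1) := by positivity
    linarith
  have hMM : 0 < M * (M + 1) := by nlinarith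
  rw [div_lt_iff₀ hMM] at h3
  have hB : ZZ x + QQ x ≤ M * (M + 1) / 12544 := by linarith
  have hT : TH x ≤ M * (M + 1) := by
    nlinarith
  have hsum : M = nn x 0 true + nn x 0 false + (nn x 1 true + nn x 1 false)
      + (nn x 2 true + nn x 2 false) + (nn x 3 true + nn x 3 false) := by
    rw [hM]
    unfold MM
    simp [Fin.sum_univ_four]
  have hae : ∀ e, aa x e ^ 2 + dd x e ^ 2 ≤ ZZ x + QQ x := by
    intro e
    have a1 : aa x e ^ 2 ≤ ZZ x :=
      Finset.single_le_sum (f := fun e => aa x e ^ 2) (fun _ _ => sq_nonneg _) (Finset.mem_univ e)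
    have a2 : dd x e ^ 2 ≤ QQ x :=
      Finset.single_le_sum (f := fun e => dd x e ^ 2) (fun _ _ => sq_nonneg _) (Finset.mem_univ e)
    linarith
  have hn : ∀ e b, |nn x e b - M / 8| ≤ M / 112 := by
    intro e b
    have a1 := hae e
    have a2 : (nn x e b - M / 8) ^ 2 ≤ (aa x e ^ 2 + dd x e ^ 2) / 2 := by
      cases b
      · have e1 : nn x e false - M / 8 = (aa x e + dd x e) / 2 := by
          unfold aa dd; ring
        rw [e1]
        nlinarith [sq_nonneg (aa x e - dd x e)]
      · have e1 : nn x e true - M / 8 = (aa x e - dd x e) / 2 := by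
          unfold aa dd; ring
        rw [e1]
        nlinarith [sq_nonneg (aa x e + dd x e)]
    apply abs_le_of_sq_le_sq _ (by positivity)
    nlinarith
  have hc : ∀ f b, 7680 * ((sU x f b).2 : ℝ) ≤ M := by
    intro f b
    set c := (sU x f b).2 with hc
    by_contra hcon
    push Not at hcon
    have hc100 : 100 ≤ c := by
      by_contra h100
      push Not at h100
      have : (c : ℝ) ≤ 100 := by exact_mod_cast h100.le
      linarith
    have a1 := pow_big hc100
    have a2 : (3 / 2 : ℝ) ^ c ≤ TH x := by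
      have b1 : (3 / 2 : ℝ) ^ c ≤ ∑ b' : Bool, (3 / 2 : ℝ) ^ (sU x f b').2 :=
        Finset.single_le_sum (f := fun b' => (3 / 2 : ℝ) ^ (sU x f b').2)
          (fun _ _ => by positivity) (Finset.mem_univ b)
      have b2 : ∑ b' : Bool, (3 / 2 : ℝ) ^ (sU x f b').2 ≤ TH x :=
        Finset.single_le_sum (f := fun f' => ∑ b' : Bool, (3 / 2 : ℝ) ^ (sU x f' b').2)
          (fun _ _ => Finset.sum_nonneg fun _ _ => by positivity) (Finset.mem_univ f)
      exact b1.trans b2
    have a3 : TH x ≤ M * (M + 1) / (12544 * 960) := by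
      rw [le_div_iff₀ (by norm_num)]
      linarith
    have a4 : M * M < (7680 * (c : ℝ)) ^ 2 := by nlinarith
    nlinarith
  refine ⟨hL, hMbig, hB, ?_, ?_, ?_, ?_, hval⟩
  · intro e b
    have := (abs_le.mp (hn e b)).1
    linarith
  · intro e b
    have := (abs_le.mp (hn e b)).2
    linarith
  · unfold CC
    have : ∀ f : Fin 4, ∑ b : Bool, ((sU x f b).2 : ℝ) ≤ M / 3840 := by
      intro f
      rw [Fintype.sum_bool]
      linarith [hc f true, hc f false]
    calc ∑ f : Fin 4, ∑ b : Bool, ((sU x f b).2 : ℝ) ≤ ∑ f : Fin 4, M / 3840 :=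
          Finset.sum_le_sum fun f _ => this f
      _ = M / 960 := by
          rw [Finset.sum_const, Finset.card_univ, Fintype.card_fin, nsmul_eq_mul]
          push_cast
          ring
  · unfold CC TH
    rw [Finset.mul_sum]
    apply Finset.sum_le_sum
    intro f _
    rw [Finset.mul_sum]
    apply Finset.sum_le_sum
    intro b _
    exact c_le _

/-! ## D-steps -/

lemma MM_dstep' {x : Cfg} (hL : Lab x) (e : Fin 4) (b : Bool) :
    MM (nucleate (hypercube 4) x (vert (false, e, b))) = MM x + 1 := by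
  have h := (MM_dstep hL e b).1
  unfold MM
  simp only [h]
  fin_cases e <;> cases b <;> simp [Fin.sum_univ_four] <;> ring

lemma ZZ_dstep {x : Cfg} (hL : Lab x) (e : Fin 4) (b : Bool) :
    ZZ (nucleate (hypercube 4) x (vert (false, e, b))) = ZZ x + 2 * aa x e + 3 / 4 := by
  have h := (MM_dstep hL e b).1
  have hM := MM_dstep' hL e b
  have hsum : MM x = nn x 0 true + nn x 0 false + (nn x 1 true + nn x 1 false)
      + (nn x 2 true + nn x 2 false) + (nn x 3 true + nn x 3 false) := by
    unfold MM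
    simp [Fin.sum_univ_four]
  unfold ZZ aa
  rw [hM]
  simp only [h]
  fin_cases e <;> cases b <;> simp [Fin.sum_univ_four, hsum] <;> ring

lemma QQ_dstep {x : Cfg} (hL : Lab x) (e : Fin 4) (b : Bool) :
    QQ (nucleate (hypercube 4) x (vert (false, e, b)))
      = QQ x + (if b = true then 2 else -2) * dd x e + 1 := by
  have h := (MM_dstep hL e b).1
  unfold QQ dd
  simp only [h]
  fin_cases e <;> cases b <;> simp [Fin.sum_univ_four] <;> ring

/-- change of the exponential of the content of a contested urn that receives a ball of type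
`e` -/
noncomputable def gg (x : Cfg) (e f : Fin 4) (b : Bool) : ℝ :=
  (3 / 2 : ℝ) ^ (receive e (sU x f b)).2 - (3 / 2 : ℝ) ^ (sU x f b).2

lemma TH_dstep {x : Cfg} (hL : Lab x) (e : Fin 4) (b : Bool) :
    TH (nucleate (hypercube 4) x (vert (false, e, b)))
      = TH x + ∑ f : Fin 4, if e ≠ f then gg x e f b else 0 := by
  unfold TH
  rw [← Finset.sum_add_distrib]
  apply Finset.sum_congr rfl
  intro f _
  simp only [dstep_s, Fintype.sum_bool, hL e b]
  by_cases hf : e ≠ f
  · rw [if_pos hf]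
    cases b
    · simp [hf, gg]
    · simp [hf, gg]
      ring
  · rw [if_neg hf]
    simp [hf]

lemma gg_zero {x : Cfg} {f : Fin 4} {b : Bool} (h : (sU x f b).2 = 0) (e : Fin 4) :
    gg x e f b = 1 / 2 := by
  unfold gg receive
  rw [if_pos h, h]
  norm_num

lemma gg_pos {x : Cfg} {f : Fin 4} {b : Bool} (h : (sU x f b).2 ≠ 0) (e : Fin 4) :
    gg x e f b = (3 / 2 : ℝ) ^ (sU x f b).2 * (if (sU x f b).1 = e then 1 / 2 else -1 / 3) := by
  unfold gg receive
  rw [if_neg h]
  split_ifs with h1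
  · simp only [pow_succ]
    ring
  · obtain ⟨c, hc⟩ := Nat.exists_eq_succ_of_ne_zero h
    simp only [hc, Nat.succ_sub_one, Nat.succ_eq_add_one, pow_succ]
    ring

lemma gg_sum {x : Cfg} (hR : Reg x) (f : Fin 4) (b : Bool) :
    ∑ e : Fin 4, (if e ≠ f then nn x e b * gg x e f b else 0)
      ≤ MM x * (25 / 96 - 1 / 96 * (3 / 2 : ℝ) ^ (sU x f b).2) := by
  have hM := hR.M_big
  have hl := fun e => hR.n_low e b
  have hu := fun e => hR.n_up e b
  by_cases h : (sU x f b).2 = 0
  · simp only [gg_zero h]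
    rw [h]
    have : ∑ e : Fin 4, (if e ≠ f then nn x e b * (1 / 2 : ℝ) else 0) ≤ MM x / 4 := by
      fin_cases f <;> simp [Fin.sum_univ_four] <;>
        linarith [hu 0, hu 1, hu 2, hu 3]
    refine this.trans (le_of_eq ?_)
    ring
  · simp only [gg_pos h]
    set p : ℝ := (3 / 2 : ℝ) ^ (sU x f b).2 with hp
    have hp0 : 0 < p := by positivity
    set k := (sU x f b).1 with hk
    have key : ∑ e : Fin 4, (if e ≠ f then nn x e b * (if k = e then (1 / 2 : ℝ) else -1 / 3)
        else 0) ≤ -(MM x / 96) := by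
      generalize k = k'
      fin_cases f <;> fin_cases k' <;> simp [Fin.sum_univ_four] <;>
        linarith [hu 0, hu 1, hu 2, hu 3, hl 0, hl 1, hl 2, hl 3]
    have e1 : ∑ e : Fin 4, (if e ≠ f then nn x e b * (p * (if k = e then (1 / 2 : ℝ) else -1 / 3))
        else 0) = p * ∑ e : Fin 4, (if e ≠ f then nn x e b * (if k = e then (1 / 2 : ℝ)
          else -1 / 3) else 0) := by
      rw [Finset.mul_sum]
      apply Finset.sum_congr rfl
      intro e _
      split_ifs <;> ring
    rw [e1]
    nlinarith [mul_le_mul_of_nonneg_left key hp0.le]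

lemma dsum_B (x : Cfg) :
    ∑ e : Fin 4, ∑ b : Bool, nn x e b * (2 * aa x e + (if b = true then 2 else -2) * dd x e)
      = 2 * ZZ x - 2 * QQ x := by
  have hsum : MM x = nn x 0 true + nn x 0 false + (nn x 1 true + nn x 1 false)
      + (nn x 2 true + nn x 2 false) + (nn x 3 true + nn x 3 false) := by
    unfold MM
    simp [Fin.sum_univ_four]
  unfold ZZ QQ aa dd
  simp only [Fin.sum_univ_four, Fintype.sum_bool, if_true, hsum]
  simp
  ring

lemma dsum_T {x : Cfg} (hR : Reg x) :
    ∑ e : Fin 4, ∑ b : Bool, nn x e b * (∑ f : Fin 4, if e ≠ f then gg x e f b else 0)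
      ≤ MM x * (25 / 12 - 1 / 96 * TH x) := by
  have e1 : ∑ e : Fin 4, ∑ b : Bool, nn x e b * (∑ f : Fin 4, if e ≠ f then gg x e f b else 0)
      = ∑ f : Fin 4, ∑ b : Bool, ∑ e : Fin 4, (if e ≠ f then nn x e b * gg x e f b else 0) := by
    simp only [Finset.mul_sum]
    rw [Finset.sum_comm]
    have : ∀ b : Bool, ∑ e : Fin 4, ∑ f : Fin 4, nn x e b * (if e ≠ f then gg x e f b else 0)
        = ∑ f : Fin 4, ∑ e : Fin 4, (if e ≠ f then nn x e b * gg x e f b else 0) := by
      intro b
      rw [Finset.sum_comm]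
      apply Finset.sum_congr rfl
      intro f _
      apply Finset.sum_congr rfl
      intro e _
      split_ifs <;> simp
    rw [Finset.sum_congr rfl fun b _ => this b, Finset.sum_comm]
  rw [e1]
  have h : ∑ f : Fin 4, ∑ b : Bool, ∑ e : Fin 4, (if e ≠ f then nn x e b * gg x e f b else 0)
      ≤ ∑ f : Fin 4, ∑ b : Bool, MM x * (25 / 96 - 1 / 96 * (3 / 2 : ℝ) ^ (sU x f b).2) :=
    Finset.sum_le_sum fun f _ => Finset.sum_le_sum fun b _ => gg_sum hR f b
  refine h.trans (le_of_eq ?_)
  unfold TH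
  simp only [Fin.sum_univ_four, Fintype.sum_bool]
  ring

lemma fl_succ (M B T : ℝ) : fl (M + 1) B T = (B + 960 * T) / ((M + 1) * (M + 2)) + 2882 / (M + 2) := by
  unfold fl
  have : M + 1 + 1 = M + 2 := by ring
  rw [this]

/-- total contribution of the nucleations in domino urns -/
lemma dpart {x : Cfg} (hR : Reg x) :
    ∑ e : Fin 4, ∑ b : Bool, nn x e b * FF (nucleate (hypercube 4) x (vert (false, e, b)))
      ≤ MM x * fl (MM x) (ZZ x + QQ x) (TH x)
        - 960 * TH x * (MM x / 96 + 2) / ((MM x + 1) * (MM x + 2)) := by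
  classical
  have hM := hR.M_big
  have hM0 : 0 < MM x := by linarith
  have hQ0 := QQ_nonneg x
  have hT0 := TH_nonneg x
  have hFF : ∀ e b, FF (nucleate (hypercube 4) x (vert (false, e, b)))
      = ((ZZ x + QQ x + 7 / 4 + (2 * aa x e + (if b = true then 2 else -2) * dd x e))
          + 960 * (TH x + ∑ f : Fin 4, if e ≠ f then gg x e f b else 0))
          / ((MM x + 1) * (MM x + 2)) + 2882 / (MM x + 2) := by
    intro e b
    unfold FF
    rw [if_pos (MM_dstep hR.lab e b).2, MM_dstep' hR.lab, ZZ_dstep hR.lab, QQ_dstep hR.lab,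
      TH_dstep hR.lab, fl_succ]
    congr 2
    ring
  simp only [hFF]
  set D := (MM x + 1) * (MM x + 2) with hD
  have hD0 : 0 < D := by rw [hD]; positivity
  have e1 : ∑ e : Fin 4, ∑ b : Bool, nn x e b *
      (((ZZ x + QQ x + 7 / 4 + (2 * aa x e + (if b = true then 2 else -2) * dd x e))
          + 960 * (TH x + ∑ f : Fin 4, if e ≠ f then gg x e f b else 0)) / D + 2882 / (MM x + 2))
      = ((ZZ x + QQ x + 7 / 4 + 960 * TH x) / D + 2882 / (MM x + 2))
          * (∑ e : Fin 4, ∑ b : Bool, nn x e b)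
        + (∑ e : Fin 4, ∑ b : Bool, nn x e b * (2 * aa x e + (if b = true then 2 else -2) * dd x e))
          / D
        + 960 * (∑ e : Fin 4, ∑ b : Bool, nn x e b *
            (∑ f : Fin 4, if e ≠ f then gg x e f b else 0)) / D := by
    rw [Finset.mul_sum, Finset.sum_div, Finset.mul_sum, Finset.sum_div,
      ← Finset.sum_add_distrib, ← Finset.sum_add_distrib]
    apply Finset.sum_congr rfl
    intro e _
    rw [Finset.mul_sum, Finset.sum_div, Finset.mul_sum, Finset.sum_div,
      ← Finset.sum_add_distrib, ← Finset.sum_add_distrib]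
    apply Finset.sum_congr rfl
    intro b _
    ring
  rw [e1, dsum_B]
  have hMdef : ∑ e : Fin 4, ∑ b : Bool, nn x e b = MM x := rfl
  rw [hMdef]
  have h1 := dsum_T hR
  have h2 : 960 * (∑ e : Fin 4, ∑ b : Bool, nn x e b *
            (∑ f : Fin 4, if e ≠ f then gg x e f b else 0)) / D
      ≤ 960 * (MM x * (25 / 12 - 1 / 96 * TH x)) / D := by gcongr
  have h3 : ((ZZ x + QQ x + 7 / 4 + 960 * TH x) / D + 2882 / (MM x + 2)) * MM x
      + (2 * ZZ x - 2 * QQ x) / D + 960 * (MM x * (25 / 12 - 1 / 96 * TH x)) / D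
      ≤ MM x * fl (MM x) (ZZ x + QQ x) (TH x)
        - 960 * TH x * (MM x / 96 + 2) / D := by
    unfold fl
    set M := MM x
    set Z := ZZ x
    set Q := QQ x
    set T := TH x
    have hne1 : M + 1 ≠ 0 := by positivity
    have hne2 : M + 2 ≠ 0 := by positivity
    have hne3 : M ≠ 0 := by positivity
    have e2 : M * ((Z + Q + 960 * T) / (M * (M + 1)) + 2882 / (M + 1))
        - 960 * T * (M / 96 + 2) / D
        - (((Z + Q + 7 / 4 + 960 * T) / D + 2882 / (M + 2)) * M
      + (2 * Z - 2 * Q) / D + 960 * (M * (25 / 12 - 1 / 96 * T)) / D)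
        = (4 * Q + M * (2882 - 7 / 4 - 2000)) / D := by
      rw [hD]
      field_simp
      ring
    have e3 : 0 ≤ (4 * Q + M * (2882 - 7 / 4 - 2000)) / D := by
      apply div_nonneg _ hD0.le
      nlinarith
    linarith
  linarith

end Pool.Agent.R815.Urn
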