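import Pool.Agent.R815.Urn.Defs

/-!
# Competing urn schemes: no explosion
-/

namespace Pool.Agent.R815.Urn

open Finset MeasureTheory ProbabilityTheory Filter Topology

lemma receive_le' {K : ℕ} (j : Fin K) (u : Urn K) : (receive j u).2 ≤ u.2 + 1 := by
  unfold receive
  split_ifs with h1 h2
  · simp
  · simp
  · show u.2 - 1 ≤ u.2 + 1
    omega

lemma total_nucleate_le {V : Type} [Fintype V] {K : ℕ} (G : SimpleGraph V) [DecidableRel G.Adj]
    (x : V → Urn K) (v : V) : total (nucleate G x v) ≤ total x + Fintype.card V := by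
  unfold total
  have : ∑ u, (x u).2 + Fintype.card V = ∑ u, ((x u).2 + 1) := by
    rw [Finset.sum_add_distrib]; simp
  rw [this]
  apply Finset.sum_le_sum
  intro u _
  unfold nucleate
  split_ifs
  · exact receive_le' _ _
  · omega

lemma total_conf_le {V : Type} [Fintype V] {K : ℕ} (G : SimpleGraph V) [DecidableRel G.Adj]
    (x0 : V → Urn K) (a : ℕ → V) (n : ℕ) :
    total (conf G x0 a n) ≤ total x0 + Fintype.card V * n := by
  induction n with
  | zero => simp [conf]
  | succ n ih =>
    have := total_nucleate_le G (conf G x0 a n) (a n)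
    simp only [conf]
    rw [mul_add, mul_one]
    omega

lemma exp_pos_ae {Ω : Type} [MeasurableSpace Ω] {μ : Measure Ω} {f : Ω → ℝ}
    (hf : Measurable f) (hl : μ.map f = expMeasure 1) : ∀ᵐ ω ∂μ, 0 < f ω := by
  have := isProbabilityMeasure_expMeasure (r := 1) one_pos
  have h1 : (expMeasure 1) (Set.Iic 0) = 0 := by
    have h2 := cdf_expMeasure_eq (r := 1) one_pos 0
    rw [cdf_eq_real] at h2
    simp at h2
    exact (measureReal_eq_zero_iff).mp h2
  rw [ae_iff]
  have : {a | ¬0 < f a} = f ⁻¹' (Set.Iic 0) := by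
    ext a; simp
  rw [this, ← Measure.map_apply hf measurableSet_Iic, hl, h1]

/-- `1 - E exp (-e)` for a standard exponential variable -/
noncomputable def kap : ℝ := 1 - ∫ x, Real.exp (-x) ∂(expMeasure 1)

lemma exp_pos_ae' : ∀ᵐ x ∂(expMeasure 1), 0 < x := by
  have := exp_pos_ae (μ := expMeasure 1) (f := id) measurable_id (by simp)
  simpa using this

lemma int_exp {b : ℝ} (hb : 0 ≤ b) : Integrable (fun x => Real.exp (-(b * x))) (expMeasure 1) := by
  have := isProbabilityMeasure_expMeasure (r := 1) one_pos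
  apply Integrable.of_bound (C := 1) (by fun_prop)
  filter_upwards [exp_pos_ae'] with x hx
  rw [Real.norm_eq_abs, abs_of_pos (Real.exp_pos _)]
  rw [Real.exp_le_one_iff]
  have := mul_nonneg hb hx.le
  linarith

lemma kap_pos : 0 < kap := by
  have := isProbabilityMeasure_expMeasure (r := 1) one_pos
  have h0 : Integrable (fun x : ℝ => Real.exp (-x)) (expMeasure 1) := by
    simpa using int_exp (b := 1) zero_le_one
  have h1 : 0 < ∫ x, (1 - Real.exp (-x)) ∂(expMeasure 1) := by
    rw [integral_pos_iff_support_of_nonneg_ae]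
    · have h2 : (expMeasure 1) (Function.support fun x : ℝ => 1 - Real.exp (-x))ᶜ = 0 := by
        have h3 := exp_pos_ae'
        rw [ae_iff] at h3
        refine measure_mono_null ?_ h3
        intro x hx
        simp only [Set.mem_compl_iff, Function.mem_support, ne_eq, not_not, Set.mem_ofPred_eq,
          not_lt] at hx ⊢
        have : Real.exp (-x) = 1 := by linarith
        rw [Real.exp_eq_one_iff] at this
        linarith
      by_contra hcon
      have h4 : (expMeasure 1) (Function.support fun x : ℝ => 1 - Real.exp (-x)) = 0 := by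
        simpa using hcon
      have h5 : (expMeasure 1) Set.univ = 0 := by
        rw [← Set.union_compl_self (Function.support fun x : ℝ => 1 - Real.exp (-x))]
        exact measure_union_null h4 h2
      rw [measure_univ] at h5
      exact one_ne_zero h5
    · filter_upwards [exp_pos_ae'] with x hx
      have : Real.exp (-x) ≤ 1 := by
        rw [Real.exp_le_one_iff]; linarith
      simp only [Pi.zero_apply]
      linarith
    · exact (integrable_const 1).sub h0
  rw [integral_sub (integrable_const 1) h0] at h1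
  simpa [kap] using h1

lemma mgf_le {b : ℝ} (hb : 0 ≤ b) (hb1 : b ≤ 1) :
    ∫ x, Real.exp (-(b * x)) ∂(expMeasure 1) ≤ Real.exp (-(kap * b)) := by
  have := isProbabilityMeasure_expMeasure (r := 1) one_pos
  have h0 : Integrable (fun x : ℝ => Real.exp (-x)) (expMeasure 1) := by
    simpa using int_exp (b := 1) zero_le_one
  have h1 : ∫ x, Real.exp (-(b * x)) ∂(expMeasure 1)
      ≤ ∫ x, ((1 - b) + b * Real.exp (-x)) ∂(expMeasure 1) := by
    apply integral_mono (int_exp hb) ((integrable_const _).add (h0.const_mul b))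
    intro x
    have h2 := convexOn_exp.2 (Set.mem_univ (0 : ℝ)) (Set.mem_univ (-x))
      (sub_nonneg.mpr hb1) hb (sub_add_cancel 1 b)
    simp only [smul_eq_mul, mul_zero, Real.exp_zero, mul_one, zero_add] at h2
    have e : b * -x = -(b * x) := by ring
    rw [e] at h2
    exact h2
  have h3 : ∫ x, ((1 - b) + b * Real.exp (-x)) ∂(expMeasure 1) = 1 - kap * b := by
    rw [integral_add (integrable_const _) (h0.const_mul b), integral_const_mul]
    simp [kap]
    ring
  rw [h3] at h1
  have h4 := Real.add_one_le_exp (-(kap * b))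
  linarith

section

variable {Ω : Type} [MeasurableSpace Ω] {μ : Measure Ω} [IsProbabilityMeasure μ] {e : ℕ → Ω → ℝ}

lemma prob_le (hm : ∀ n, Measurable (e n)) (hl : ∀ n, μ.map (e n) = expMeasure 1)
    (hi : iIndepFun e μ) {b : ℕ → ℝ} (hb : ∀ n, 0 ≤ b n) (hb1 : ∀ n, b n ≤ 1) (n : ℕ) (t : ℝ) :
    μ.real {ω | ∑ k ∈ range n, b k * e k ω ≤ t}
      ≤ Real.exp t * Real.exp (-(kap * ∑ k ∈ range n, b k)) := by
  set X : ℕ → Ω → ℝ := fun k ω => b k * e k ω with hX
  have hpos : ∀ᵐ ω ∂μ, ∀ k, 0 < e k ω := by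
    rw [ae_all_iff]; intro k; exact exp_pos_ae (hm k) (hl k)
  have hXm : ∀ k, Measurable (X k) := fun k => (hm k).const_mul (b k)
  have hind : iIndepFun X μ := by
    have := hi.comp (fun k (x : ℝ) => b k * x) (fun k => by fun_prop)
    exact this
  have hsum : ∀ ω, (∑ k ∈ range n, X k) ω = ∑ k ∈ range n, b k * e k ω := by
    intro ω; simp [hX, Finset.sum_apply]
  have h1 := measure_le_le_exp_mul_mgf (μ := μ) (X := ∑ k ∈ range n, X k) (t := -1) t
    (by norm_num) ?_
  · have h2 : mgf (∑ k ∈ range n, X k) μ (-1) ≤ Real.exp (-(kap * ∑ k ∈ range n, b k)) := by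
      rw [hind.mgf_sum hXm, Finset.mul_sum, ← Finset.sum_neg_distrib, Real.exp_sum]
      apply Finset.prod_le_prod
      · intro k _; exact mgf_nonneg
      · intro k _
        have e1 : mgf (X k) μ (-1) = ∫ x, Real.exp (-(b k * x)) ∂(expMeasure 1) := by
          rw [← hl k, integral_map (hm k).aemeasurable (by fun_prop)]
          unfold mgf
          apply integral_congr_ae
          filter_upwards with ω
          simp [hX]
        rw [e1]
        exact mgf_le (hb k) (hb1 k)
    have h3 : {ω | ∑ k ∈ range n, b k * e k ω ≤ t} = {ω | (∑ k ∈ range n, X k) ω ≤ t} := by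
      ext ω; simp only [Set.mem_ofPred_eq, hsum]
    rw [h3]
    refine h1.trans ?_
    rw [neg_neg, one_mul]
    exact mul_le_mul_of_nonneg_left h2 (Real.exp_pos t).le
  · apply Integrable.of_bound (C := 1)
    · apply Measurable.aestronglyMeasurable
      apply Real.measurable_exp.comp
      apply Measurable.const_mul
      have e2 : (∑ k ∈ range n, X k) = fun ω => ∑ k ∈ range n, X k ω := by
        funext ω; simp [Finset.sum_apply]
      rw [e2]
      exact Finset.measurable_sum _ fun k _ => hXm k
    · filter_upwards [hpos] with ω hω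
      rw [Real.norm_eq_abs, abs_of_pos (Real.exp_pos _), Real.exp_le_one_iff, hsum]
      have : 0 ≤ ∑ k ∈ range n, b k * e k ω :=
        Finset.sum_nonneg fun k _ => mul_nonneg (hb k) (hω k).le
      linarith

/-- A weighted sum of independent exponential variables diverges if the sum of the weights
diverges. -/
lemma ae_unbounded (hm : ∀ n, Measurable (e n)) (hl : ∀ n, μ.map (e n) = expMeasure 1)
    (hi : iIndepFun e μ) {b : ℕ → ℝ} (hb : ∀ n, 0 ≤ b n) (hb1 : ∀ n, b n ≤ 1)
    (hd : Tendsto (fun n => ∑ k ∈ range n, b k) atTop atTop) :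
    ∀ᵐ ω ∂μ, ∀ t : ℝ, ∃ n, t < ∑ k ∈ range n, b k * e k ω := by
  have key : ∀ m : ℕ, ∀ᵐ ω ∂μ, ∃ n, (m : ℝ) < ∑ k ∈ range n, b k * e k ω := by
    intro m
    rw [ae_iff]
    have hlim : Tendsto (fun n => Real.exp (m : ℝ) * Real.exp (-(kap * ∑ k ∈ range n, b k)))
        atTop (𝓝 0) := by
      have h1 : Tendsto (fun n => kap * ∑ k ∈ range n, b k) atTop atTop :=
        hd.const_mul_atTop kap_pos
      have h2 := (Real.tendsto_exp_neg_atTop_nhds_zero.comp h1).const_mul (Real.exp (m : ℝ))
      simpa using h2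
    have h3 : ∀ n, μ.real {a | ¬∃ n, (m : ℝ) < ∑ k ∈ range n, b k * e k a}
        ≤ Real.exp (m : ℝ) * Real.exp (-(kap * ∑ k ∈ range n, b k)) := by
      intro n
      refine le_trans (measureReal_mono ?_) (prob_le hm hl hi hb hb1 n m)
      intro a ha
      simp only [Set.mem_ofPred_eq, not_exists, not_lt] at ha ⊢
      exact ha n
    have h4 : μ.real {a | ¬∃ n, (m : ℝ) < ∑ k ∈ range n, b k * e k a} ≤ 0 :=
      ge_of_tendsto' hlim h3
    have h5 := le_antisymm h4 measureReal_nonneg
    exact (measureReal_eq_zero_iff).mp h5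
  rw [← ae_all_iff] at key
  filter_upwards [key] with ω hω t
  obtain ⟨m, hm⟩ := exists_nat_ge t
  obtain ⟨n, hn⟩ := hω m
  exact ⟨n, lt_of_le_of_lt hm hn⟩

end

lemma harmonic_div (T c : ℕ) (hT : 0 < T) :
    Tendsto (fun n => ∑ k ∈ range n, (1 : ℝ) / ((T : ℝ) + c * k)) atTop atTop := by
  have h1 : Tendsto (fun n => ∑ k ∈ range n, (1 : ℝ) / ((k : ℝ) + 1)) atTop atTop :=
    Real.tendsto_sum_range_one_div_nat_succ_atTop
  have hTc : (0 : ℝ) < (T : ℝ) + c := by positivity
  have h2 : Tendsto (fun n => (1 / ((T : ℝ) + c)) * ∑ k ∈ range n, (1 : ℝ) / ((k : ℝ) + 1))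
      atTop atTop := h1.const_mul_atTop (by positivity)
  refine tendsto_atTop_mono ?_ h2
  intro n
  rw [Finset.mul_sum]
  apply Finset.sum_le_sum
  intro k _
  have hk : (0 : ℝ) ≤ k := Nat.cast_nonneg k
  have hT' : (0 : ℝ) < T := by exact_mod_cast hT
  have hc : (0 : ℝ) ≤ c := Nat.cast_nonneg c
  rw [div_mul_div_comm, one_mul]
  apply one_div_le_one_div_of_le
  · positivity
  · nlinarith [mul_nonneg hk hT'.le]

/-- The scheme does not explode: on the event that there is always a ball, the nucleation times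
are strictly increasing and exhaust all times. -/
theorem nonexplosion {V : Type} [Fintype V] {K : ℕ} (G : SimpleGraph V) [DecidableRel G.Adj]
    (x0 : V → Urn K) {Ω : Type} [MeasurableSpace Ω] {μ : Measure Ω} [IsProbabilityMeasure μ]
    {v : ℕ → Ω → V} {e : ℕ → Ω → ℝ} (h : IsUrnScheme G x0 μ v e) (h0 : 0 < total x0) :
    ∀ᵐ ω ∂μ, (∀ k, 0 < total (conf G x0 (fun m => v m ω) k)) →
      StrictMono (jumpTime G x0 (fun m => v m ω) (fun m => e m ω)) ∧
      ∀ t : ℝ, 0 ≤ t → ∃ n, jumpTime G x0 (fun m => v m ω) (fun m => e m ω) n ≤ t ∧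
        t < jumpTime G x0 (fun m => v m ω) (fun m => e m ω) (n + 1) := by
  have hpos : ∀ᵐ ω ∂μ, ∀ k, 0 < e k ω := by
    rw [ae_all_iff]; intro k; exact exp_pos_ae (h.meas_e k) (h.exp_law k)
  set b : ℕ → ℝ := fun k => 1 / ((total x0 : ℝ) + (Fintype.card V : ℕ) * k) with hb
  have h0' : (1 : ℝ) ≤ total x0 := by exact_mod_cast h0
  have hden : ∀ k : ℕ, (1 : ℝ) ≤ (total x0 : ℝ) + (Fintype.card V : ℕ) * k := by
    intro k
    have : (0 : ℝ) ≤ (Fintype.card V : ℕ) * k := by positivity
    linarith
  have hb0 : ∀ n, 0 ≤ b n := fun n => by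
    have := hden n
    simp only [hb]; positivity
  have hb1 : ∀ n, b n ≤ 1 := fun n => by
    simp only [hb]
    rw [div_le_one (by linarith [hden n])]
    exact hden n
  have hun := ae_unbounded h.meas_e h.exp_law h.indep_e hb0 hb1 (harmonic_div _ _ h0)
  filter_upwards [hpos, hun] with ω hω hu ht
  have hstep : ∀ k, 0 < e k ω / (total (conf G x0 (fun m => v m ω) k) : ℝ) := by
    intro k
    have : (0 : ℝ) < total (conf G x0 (fun m => v m ω) k) := by exact_mod_cast ht k
    exact div_pos (hω k) this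
  refine ⟨strictMono_nat_of_lt_succ fun n => ?_, ?_⟩
  · unfold jumpTime
    rw [Finset.sum_range_succ]
    linarith [hstep n]
  · intro t ht0
    have hge : ∀ n, ∑ k ∈ range n, b k * e k ω
        ≤ jumpTime G x0 (fun m => v m ω) (fun m => e m ω) n := by
      intro n
      unfold jumpTime
      apply Finset.sum_le_sum
      intro k _
      have h1 : (0 : ℝ) < total (conf G x0 (fun m => v m ω) k) := by exact_mod_cast ht k
      have h2 : (total (conf G x0 (fun m => v m ω) k) : ℝ)
          ≤ (total x0 : ℝ) + (Fintype.card V : ℕ) * k := by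
        exact_mod_cast total_conf_le G x0 (fun m => v m ω) k
      simp only [hb]
      rw [one_div_mul_eq_div]
      exact div_le_div_of_nonneg_left (hω k).le h1 h2
    have hex : ∃ n, t < jumpTime G x0 (fun m => v m ω) (fun m => e m ω) n := by
      obtain ⟨n, hn⟩ := hu t
      exact ⟨n, lt_of_lt_of_le hn (hge n)⟩
    classical
    have hn := Nat.find_spec hex
    have hn0 : Nat.find hex ≠ 0 := by
      intro hz
      rw [hz] at hn
      have : jumpTime G x0 (fun m => v m ω) (fun m => e m ω) 0 = 0 := by simp [jumpTime]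
      linarith
    obtain ⟨m, hm⟩ := Nat.exists_eq_succ_of_ne_zero hn0
    refine ⟨m, ?_, ?_⟩
    · have := Nat.find_min hex (m := m) (by omega)
      exact not_lt.mp this
    · have e1 : m + 1 = Nat.find hex := by omega
      rw [e1]; exact hn

end Pool.Agent.R815.Urn
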