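import Pool.Agent.R815.Urn.Defs

/-!
# The 4-dimensional hypercube: dominoes and contested urns
-/

namespace Pool.Agent.R815.Urn

open Finset

/-- The hypercube with vertex set `{0,1}^n`, two strings being adjacent if they differ in exactly
one coordinate. -/
def hypercube (n : ℕ) : SimpleGraph (Fin n → Bool) where
  Adj v w := (univ.filter fun i => v i ≠ w i).card = 1
  symm := ⟨fun v w h => by
    have e : (univ.filter fun i => w i ≠ v i) = univ.filter fun i => v i ≠ w i := by
      ext i; simp [ne_comm]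
    rw [e]; exact h⟩
  loopless := ⟨fun v h => by simp at h⟩

instance (n : ℕ) : DecidableRel (hypercube n).Adj :=
  fun v w => inferInstanceAs (Decidable ((univ.filter fun i => v i ≠ w i).card = 1))

/-- coordinates: kind (`false`: domino urn, `true`: contested urn), index, last coordinate -/
abbrev PP : Type := Bool × Fin 4 × Bool

def bit0' : Fin 4 → Bool := ![false, false, true, true]
def bit1' : Fin 4 → Bool := ![false, true, false, true]
def bit2' : Fin 4 → Bool := ![false, true, true, false]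

/-- the vertex with given coordinates -/
def vert (p : PP) : Fin 4 → Bool :=
  ![xor p.1 (bit0' p.2.1), xor p.1 (bit1' p.2.1), xor p.1 (bit2' p.2.1), p.2.2]

lemma vert_bij : Function.Bijective vert := by decide +kernel

lemma adj_iff : ∀ p q : PP, (hypercube 4).Adj (vert p) (vert q) ↔
    ((p.1 = q.1 ∧ p.2.1 = q.2.1 ∧ p.2.2 ≠ q.2.2) ∨
      (p.1 ≠ q.1 ∧ p.2.1 ≠ q.2.1 ∧ p.2.2 = q.2.2)) := by decide +kernel

abbrev Cfg : Type := (Fin 4 → Bool) → Urn 4

lemma sum_vert (g : (Fin 4 → Bool) → ℝ) :
    ∑ v, g v = (∑ e : Fin 4, ∑ b : Bool, g (vert (false, e, b)))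
      + ∑ f : Fin 4, ∑ b : Bool, g (vert (true, f, b)) := by
  have h := (Equiv.ofBijective vert vert_bij).sum_comp g
  rw [← h]
  simp only [Equiv.ofBijective_apply]
  rw [Fintype.sum_prod_type, Fintype.sum_bool]
  rw [Fintype.sum_prod_type, Fintype.sum_prod_type, add_comm]

/-- content of a domino urn -/
def dU (x : Cfg) (e : Fin 4) (b : Bool) : Urn 4 := x (vert (false, e, b))

/-- content of a contested urn -/
def sU (x : Cfg) (f : Fin 4) (b : Bool) : Urn 4 := x (vert (true, f, b))

/-- number of balls in a domino urn -/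
def nn (x : Cfg) (e : Fin 4) (b : Bool) : ℝ := ((dU x e b).2 : ℝ)

lemma dstep_d (x : Cfg) (e e' : Fin 4) (b b' : Bool) :
    dU (nucleate (hypercube 4) x (vert (false, e, b))) e' b'
      = if e = e' ∧ b ≠ b' then receive (dU x e b).1 (dU x e' b') else dU x e' b' := by
  unfold dU nucleate
  have h := adj_iff (false, e, b) (false, e', b')
  by_cases hc : e = e' ∧ b ≠ b'
  · rw [if_pos hc, if_pos]
    rw [h]
    left
    exact ⟨rfl, hc⟩
  · rw [if_neg hc, if_neg]
    rw [h]
    rintro (⟨_, h2⟩ | ⟨h2, _⟩)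
    · exact hc h2
    · exact h2 rfl

lemma dstep_s (x : Cfg) (e f : Fin 4) (b b' : Bool) :
    sU (nucleate (hypercube 4) x (vert (false, e, b))) f b'
      = if e ≠ f ∧ b = b' then receive (dU x e b).1 (sU x f b') else sU x f b' := by
  unfold dU sU nucleate
  have h := adj_iff (false, e, b) (true, f, b')
  by_cases hc : e ≠ f ∧ b = b'
  · rw [if_pos hc, if_pos]
    rw [h]
    right
    exact ⟨by simp, hc⟩
  · rw [if_neg hc, if_neg]
    rw [h]
    rintro (⟨h2, _⟩ | ⟨_, h2⟩)
    · simp at h2
    · exact hc h2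

lemma sstep_d (x : Cfg) (f e : Fin 4) (b b' : Bool) :
    dU (nucleate (hypercube 4) x (vert (true, f, b))) e b'
      = if f ≠ e ∧ b = b' then receive (sU x f b).1 (dU x e b') else dU x e b' := by
  unfold dU sU nucleate
  have h := adj_iff (true, f, b) (false, e, b')
  by_cases hc : f ≠ e ∧ b = b'
  · rw [if_pos hc, if_pos]
    rw [h]
    right
    exact ⟨by simp, hc⟩
  · rw [if_neg hc, if_neg]
    rw [h]
    rintro (⟨h2, _⟩ | ⟨_, h2⟩)
    · simp at h2
    · exact hc h2

lemma sstep_s (x : Cfg) (f f' : Fin 4) (b b' : Bool) :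
    sU (nucleate (hypercube 4) x (vert (true, f, b))) f' b'
      = if f = f' ∧ b ≠ b' then receive (sU x f b).1 (sU x f' b') else sU x f' b' := by
  unfold sU nucleate
  have h := adj_iff (true, f, b) (true, f', b')
  by_cases hc : f = f' ∧ b ≠ b'
  · rw [if_pos hc, if_pos]
    rw [h]
    left
    exact ⟨rfl, hc⟩
  · rw [if_neg hc, if_neg]
    rw [h]
    rintro (⟨_, h2⟩ | ⟨h2, _⟩)
    · exact hc h2
    · exact h2 rfl

/-- All domino urns carry the label of their domino. -/
def Lab (x : Cfg) : Prop := ∀ e b, (dU x e b).1 = e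

/-- number of balls in the domino urns -/
noncomputable def MM (x : Cfg) : ℝ := ∑ e : Fin 4, ∑ b : Bool, nn x e b

noncomputable def aa (x : Cfg) (e : Fin 4) : ℝ := nn x e true + nn x e false - MM x / 4

noncomputable def dd (x : Cfg) (e : Fin 4) : ℝ := nn x e false - nn x e true

noncomputable def ZZ (x : Cfg) : ℝ := ∑ e : Fin 4, aa x e ^ 2

noncomputable def QQ (x : Cfg) : ℝ := ∑ e : Fin 4, dd x e ^ 2

noncomputable def TH (x : Cfg) : ℝ := ∑ f : Fin 4, ∑ b : Bool, (3 / 2 : ℝ) ^ (sU x f b).2

/-- number of balls in the contested urns -/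
noncomputable def CC (x : Cfg) : ℝ := ∑ f : Fin 4, ∑ b : Bool, ((sU x f b).2 : ℝ)

/-- the main formula of the Lyapunov function -/
noncomputable def fl (M B T : ℝ) : ℝ := (B + 960 * T) / (M * (M + 1)) + 2882 / (M + 1)

open Classical in
/-- the Lyapunov function -/
noncomputable def FF (x : Cfg) : ℝ :=
  if Lab x then fl (MM x) (ZZ x + QQ x) (TH x) else 1 / 12544

lemma nn_nonneg (x : Cfg) (e : Fin 4) (b : Bool) : 0 ≤ nn x e b := by
  unfold nn; positivity

lemma MM_nonneg (x : Cfg) : 0 ≤ MM x :=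
  Finset.sum_nonneg fun _ _ => Finset.sum_nonneg fun _ _ => nn_nonneg _ _ _

lemma ZZ_nonneg (x : Cfg) : 0 ≤ ZZ x := Finset.sum_nonneg fun _ _ => sq_nonneg _

lemma QQ_nonneg (x : Cfg) : 0 ≤ QQ x := Finset.sum_nonneg fun _ _ => sq_nonneg _

lemma TH_nonneg (x : Cfg) : 0 ≤ TH x :=
  Finset.sum_nonneg fun _ _ => Finset.sum_nonneg fun _ _ => by positivity

lemma CC_nonneg (x : Cfg) : 0 ≤ CC x :=
  Finset.sum_nonneg fun _ _ => Finset.sum_nonneg fun _ _ => by positivity

lemma FF_nonneg (x : Cfg) : 0 ≤ FF x := by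
  unfold FF
  split_ifs
  · unfold fl
    have := MM_nonneg x
    have := ZZ_nonneg x
    have := QQ_nonneg x
    have := TH_nonneg x
    positivity
  · norm_num

lemma total_eq (x : Cfg) : (total x : ℝ) = MM x + CC x := by
  unfold total MM CC nn dU sU
  push_cast
  rw [sum_vert (fun v => ((x v).2 : ℝ))]

/-- the three quantities after a nucleation in a domino urn -/
lemma MM_dstep {x : Cfg} (hL : Lab x) (e : Fin 4) (b : Bool) :
    (∀ e' b', nn (nucleate (hypercube 4) x (vert (false, e, b))) e' b'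
      = nn x e' b' + if e = e' ∧ b ≠ b' then 1 else 0) ∧
    Lab (nucleate (hypercube 4) x (vert (false, e, b))) := by
  have key : ∀ e' b', dU (nucleate (hypercube 4) x (vert (false, e, b))) e' b'
      = (e', (dU x e' b').2 + if e = e' ∧ b ≠ b' then 1 else 0) := by
    intro e' b'
    rw [dstep_d]
    have h1 := hL e b
    have h2 := hL e' b'
    by_cases hc : e = e' ∧ b ≠ b'
    · rw [if_pos hc, if_pos hc]
      obtain ⟨he, _⟩ := hc
      subst he
      unfold receive
      by_cases h0 : (dU x e b').2 = 0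
      · rw [if_pos h0, h0, h1]
      · rw [if_neg h0, if_pos (by rw [h1, h2]), h2]
    · rw [if_neg hc, if_neg hc, add_zero, ← h2]
      rw [h2]
      exact Prod.ext h2 rfl
  constructor
  · intro e' b'
    unfold nn
    rw [key]
    simp only
    push_cast
    rfl
  · intro e' b'
    rw [key]

lemma receive_le {K : ℕ} (j : Fin K) (u : Urn K) : (receive j u).2 ≤ u.2 + 1 := by
  unfold receive
  split_ifs with h1 h2
  · simp
  · simp
  · show u.2 - 1 ≤ u.2 + 1
    omega

lemma le_receive {K : ℕ} (j : Fin K) (u : Urn K) : u.2 ≤ (receive j u).2 + 1 := by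
  unfold receive
  split_ifs with h1 h2
  · omega
  · show u.2 ≤ u.2 + 1 + 1
    omega
  · show u.2 ≤ u.2 - 1 + 1
    omega

end Pool.Agent.R815.Urn
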