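import Pool.Agent.R815.Urn.Lyap

/-!
# The supermartingale property
-/

namespace Pool.Agent.R815.Urn

open Finset

lemma receive_label {K : ℕ} (j : Fin K) {u : Urn K} (h : u.2 ≠ 0) : (receive j u).1 = u.1 := by
  unfold receive
  rw [if_neg h]
  split_ifs <;> rfl

lemma sstep_nn {x : Cfg} (hR : Reg x) (f e : Fin 4) (b b' : Bool) :
    |nn (nucleate (hypercube 4) x (vert (true, f, b))) e b' - nn x e b'| ≤ 1 := by
  unfold nn
  rw [sstep_d]
  split_ifs with h
  · have h1 := receive_le (sU x f b).1 (dU x e b')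
    have h2 := le_receive (sU x f b).1 (dU x e b')
    have h1' : ((receive (sU x f b).1 (dU x e b')).2 : ℝ) ≤ (dU x e b').2 + 1 := by
      exact_mod_cast h1
    have h2' : ((dU x e b').2 : ℝ) ≤ (receive (sU x f b).1 (dU x e b')).2 + 1 := by
      exact_mod_cast h2
    rw [abs_le]
    constructor <;> linarith
  · simp

lemma sstep_lab {x : Cfg} (hR : Reg x) (f : Fin 4) (b : Bool) :
    Lab (nucleate (hypercube 4) x (vert (true, f, b))) := by
  intro e b'
  rw [sstep_d]
  split_ifs with h
  · rw [receive_label _ _, hR.lab]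
    intro h0
    have h1 := hR.n_low e b'
    have h2 := hR.M_big
    unfold nn at h1
    rw [h0] at h1
    push_cast at h1
    linarith
  · exact hR.lab e b'

lemma sstep_TH (x : Cfg) (f : Fin 4) (b : Bool) :
    TH (nucleate (hypercube 4) x (vert (true, f, b))) ≤ 3 / 2 * TH x := by
  unfold TH
  rw [Finset.mul_sum]
  apply Finset.sum_le_sum
  intro f' _
  rw [Finset.mul_sum]
  apply Finset.sum_le_sum
  intro b' _
  rw [sstep_s]
  have hp : (0 : ℝ) < (3 / 2 : ℝ) ^ (sU x f' b').2 := by positivity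
  split_ifs with h
  · calc (3 / 2 : ℝ) ^ (receive (sU x f b).1 (sU x f' b')).2
        ≤ (3 / 2 : ℝ) ^ ((sU x f' b').2 + 1) :=
          pow_le_pow_right₀ (by norm_num) (receive_le _ _)
      _ = 3 / 2 * (3 / 2 : ℝ) ^ (sU x f' b').2 := by rw [pow_succ]; ring
  · linarith

lemma sstep_bounds {x : Cfg} (hR : Reg x) (f : Fin 4) (b : Bool) :
    MM x - 8 ≤ MM (nucleate (hypercube 4) x (vert (true, f, b))) ∧
    ZZ (nucleate (hypercube 4) x (vert (true, f, b)))
      + QQ (nucleate (hypercube 4) x (vert (true, f, b))) ≤ ZZ x + QQ x + MM x := by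
  set y := nucleate (hypercube 4) x (vert (true, f, b)) with hy
  have h := fun e b' => sstep_nn hR f e b b'
  rw [← hy] at h
  have hM := hR.M_big
  have hsum : ∀ z : Cfg, MM z = nn z 0 true + nn z 0 false + (nn z 1 true + nn z 1 false)
      + (nn z 2 true + nn z 2 false) + (nn z 3 true + nn z 3 false) := by
    intro z
    unfold MM
    simp [Fin.sum_univ_four]
  have hl := fun e b' => (abs_le.mp (h e b')).1
  have hu := fun e b' => (abs_le.mp (h e b')).2
  have hMlow : MM x - 8 ≤ MM y := by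
    rw [hsum x, hsum y]
    linarith [hl 0 true, hl 0 false, hl 1 true, hl 1 false, hl 2 true, hl 2 false, hl 3 true,
      hl 3 false]
  have hMup : MM y ≤ MM x + 8 := by
    rw [hsum x, hsum y]
    linarith [hu 0 true, hu 0 false, hu 1 true, hu 1 false, hu 2 true, hu 2 false, hu 3 true,
      hu 3 false]
  refine ⟨hMlow, ?_⟩
  have ha : ∀ e, aa y e ^ 2 ≤ aa x e ^ 2 + (8 * (MM x / 56) + 16) := by
    intro e
    have h1 : |aa y e - aa x e| ≤ 4 := by
      unfold aa
      rw [abs_le]
      constructor <;> linarith [hl e true, hl e false, hu e true, hu e false]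
    have h2 : |aa x e| ≤ MM x / 56 := by
      unfold aa
      rw [abs_le]
      constructor <;> linarith [hR.n_low e true, hR.n_low e false, hR.n_up e true,
        hR.n_up e false]
    have h3 : aa y e ^ 2 = aa x e ^ 2 + 2 * (aa x e * (aa y e - aa x e))
        + (aa y e - aa x e) ^ 2 := by ring
    have h4 : aa x e * (aa y e - aa x e) ≤ MM x / 56 * 4 := by
      calc aa x e * (aa y e - aa x e) ≤ |aa x e * (aa y e - aa x e)| := le_abs_self _
        _ = |aa x e| * |aa y e - aa x e| := abs_mul _ _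
        _ ≤ MM x / 56 * 4 := mul_le_mul h2 h1 (abs_nonneg _) (by linarith)
    have h5 : (aa y e - aa x e) ^ 2 ≤ 16 := by
      rw [← sq_abs]
      nlinarith [abs_nonneg (aa y e - aa x e)]
    rw [h3]
    linarith
  have hd : ∀ e, dd y e ^ 2 ≤ dd x e ^ 2 + (4 * (MM x / 56) + 4) := by
    intro e
    have h1 : |dd y e - dd x e| ≤ 2 := by
      unfold dd
      rw [abs_le]
      constructor <;> linarith [hl e true, hl e false, hu e true, hu e false]
    have h2 : |dd x e| ≤ MM x / 56 := by
      unfold dd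
      rw [abs_le]
      constructor <;> linarith [hR.n_low e true, hR.n_low e false, hR.n_up e true,
        hR.n_up e false]
    have h3 : dd y e ^ 2 = dd x e ^ 2 + 2 * (dd x e * (dd y e - dd x e))
        + (dd y e - dd x e) ^ 2 := by ring
    have h4 : dd x e * (dd y e - dd x e) ≤ MM x / 56 * 2 := by
      calc dd x e * (dd y e - dd x e) ≤ |dd x e * (dd y e - dd x e)| := le_abs_self _
        _ = |dd x e| * |dd y e - dd x e| := abs_mul _ _
        _ ≤ MM x / 56 * 2 := mul_le_mul h2 h1 (abs_nonneg _) (by linarith)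
    have h5 : (dd y e - dd x e) ^ 2 ≤ 4 := by
      rw [← sq_abs]
      nlinarith [abs_nonneg (dd y e - dd x e)]
    rw [h3]
    linarith
  have hZ : ZZ y ≤ ZZ x + 4 * (8 * (MM x / 56) + 16) := by
    unfold ZZ
    simp only [Fin.sum_univ_four]
    linarith [ha 0, ha 1, ha 2, ha 3]
  have hQ : QQ y ≤ QQ x + 4 * (4 * (MM x / 56) + 4) := by
    unfold QQ
    simp only [Fin.sum_univ_four]
    linarith [hd 0, hd 1, hd 2, hd 3]
  linarith

lemma fl_crude {M M' B B' T T' : ℝ} (hM : 36000000 ≤ M) (hM' : M - 8 ≤ M') (hB0 : 0 ≤ B)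
    (hB' : B' ≤ B + M) (hB'0 : 0 ≤ B') (hT0 : 0 ≤ T) (hT'0 : 0 ≤ T') (hT' : T' ≤ 3 / 2 * T)
    (hB : B ≤ M * (M + 1) / 12544) :
    fl M' B' T' ≤ fl M B T + (2 + 960 * T / M + 25938 / M) / (M + 1) := by
  have h1 : fl M' B' T' ≤ (B + M + 1440 * T) / ((M - 8) * (M - 7)) + 2882 / (M - 7) := by
    unfold fl
    have a1 : (B' + 960 * T') / (M' * (M' + 1)) ≤ (B + M + 1440 * T) / ((M - 8) * (M - 7)) := by
      apply div_le_div₀
      · nlinarith
      · linarith
      · apply mul_pos <;> linarith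
      · apply mul_le_mul hM' (by linarith) (by linarith) (by linarith)
    have a2 : 2882 / (M' + 1) ≤ 2882 / (M - 7) := by
      apply div_le_div_of_nonneg_left (by norm_num) (by linarith) (by linarith)
    linarith
  refine h1.trans ?_
  have b1 : B / ((M - 8) * (M - 7)) ≤ B / (M * (M + 1)) + 1 / 2 / (M + 1) := by
    have e : B / (M * (M + 1)) + 1 / 2 / (M + 1) = (B + M / 2) / (M * (M + 1)) := by
      field_simp
    rw [e, div_le_div_iff₀ (by nlinarith) (by nlinarith)]
    nlinarith [mul_nonneg hB0 (by linarith : (0 : ℝ) ≤ M)]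
  have b2 : M / ((M - 8) * (M - 7)) ≤ 3 / 2 / (M + 1) := by
    rw [div_le_div_iff₀ (by nlinarith) (by linarith)]
    nlinarith
  have b3 : 1440 * T / ((M - 8) * (M - 7)) ≤ 1920 * T / (M * (M + 1)) := by
    rw [div_le_div_iff₀ (by nlinarith) (by nlinarith)]
    have : 1440 * (M * (M + 1)) ≤ 1920 * ((M - 8) * (M - 7)) := by nlinarith
    nlinarith [mul_le_mul_of_nonneg_left this hT0]
  have b4 : 2882 / (M - 7) ≤ 2882 / (M + 1) + 25938 / (M * (M + 1)) := by
    have e : 2882 / (M + 1) + 25938 / (M * (M + 1)) = (2882 * M + 25938) / (M * (M + 1)) := by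
      field_simp
    rw [e, div_le_div_iff₀ (by linarith) (by nlinarith)]
    nlinarith
  have e1 : (B + M + 1440 * T) / ((M - 8) * (M - 7))
      = B / ((M - 8) * (M - 7)) + M / ((M - 8) * (M - 7)) + 1440 * T / ((M - 8) * (M - 7)) := by
    rw [add_div, add_div]
  have e2 : fl M B T + (2 + 960 * T / M + 25938 / M) / (M + 1)
      = B / (M * (M + 1)) + 1920 * T / (M * (M + 1)) + 2882 / (M + 1) + 25938 / (M * (M + 1))
        + 2 / (M + 1) := by
    unfold fl
    have hM0 : M ≠ 0 := by linarith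
    have hM1 : M + 1 ≠ 0 := by linarith
    field_simp
    ring
  have e3 : (1 : ℝ) / 2 / (M + 1) + 3 / 2 / (M + 1) = 2 / (M + 1) := by
    rw [← add_div]; norm_num
  rw [e1, e2]
  linarith

lemma spart {x : Cfg} (hR : Reg x) (f : Fin 4) (b : Bool) :
    FF (nucleate (hypercube 4) x (vert (true, f, b)))
      ≤ fl (MM x) (ZZ x + QQ x) (TH x)
        + (2 + 960 * TH x / MM x + 25938 / MM x) / (MM x + 1) := by
  classical
  obtain ⟨h1, h2⟩ := sstep_bounds hR f b
  have hL := sstep_lab hR f b
  unfold FF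
  rw [if_pos hL]
  exact fl_crude hR.M_big h1 (add_nonneg (ZZ_nonneg x) (QQ_nonneg x)) h2
    (add_nonneg (ZZ_nonneg _) (QQ_nonneg _)) (TH_nonneg x) (TH_nonneg _) (sstep_TH x f b)
    hR.B_small

theorem super {x : Cfg} (h : FF x < 1 / 12544) :
    ∑ v, wt x v * FF (nucleate (hypercube 4) x v) ≤ FF x := by
  have hR := reg_of_lt h
  have hM := hR.M_big
  have hM0 : 0 < MM x := by linarith
  have hC0 := CC_nonneg x
  have hT0 := TH_nonneg x
  have htot : (0 : ℝ) < (total x : ℝ) := by
    rw [total_eq]; linarith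
  have e1 : ∑ v, wt x v * FF (nucleate (hypercube 4) x v)
      = (∑ v, ((x v).2 : ℝ) * FF (nucleate (hypercube 4) x v)) / (total x : ℝ) := by
    rw [Finset.sum_div]
    apply Finset.sum_congr rfl
    intro v _
    unfold wt
    ring
  rw [e1, div_le_iff₀ htot, sum_vert, total_eq, hR.val]
  have h1 := dpart hR
  set M := MM x
  set T := TH x
  set B := ZZ x + QQ x
  set E := (2 + 960 * T / M + 25938 / M) / (M + 1) with hE
  have h2 : ∑ f : Fin 4, ∑ b : Bool, ((x (vert (true, f, b))).2 : ℝ)
      * FF (nucleate (hypercube 4) x (vert (true, f, b))) ≤ CC x * (fl M B T + E) := by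
    unfold CC
    rw [Finset.sum_mul]
    apply Finset.sum_le_sum
    intro f _
    rw [Finset.sum_mul]
    apply Finset.sum_le_sum
    intro b _
    exact mul_le_mul_of_nonneg_left (spart hR f b) (Nat.cast_nonneg _)
  have h3 : CC x * E ≤ 960 * T * (M / 96 + 2) / ((M + 1) * (M + 2)) := by
    have hCT := hR.C_le
    have hCM := hR.C_small
    have a1 : CC x * (2 + 960 * T / M + 25938 / M) ≤ 6 * T := by
      have b1 : CC x * (960 * T / M) ≤ T := by
        calc CC x * (960 * T / M) ≤ (M / 960) * (960 * T / M) := by gcongr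
          _ = T := by field_simp
      have b2 : CC x * (25938 / M) ≤ T := by
        have b3 : 25938 / M ≤ 1 / 2 := by
          rw [div_le_iff₀ hM0]; linarith
        calc CC x * (25938 / M) ≤ (2 * T) * (1 / 2) := by gcongr
          _ = T := by ring
      nlinarith
    have a2 : CC x * E ≤ 6 * T / (M + 1) := by
      rw [hE, ← mul_div_assoc]
      gcongr
    refine a2.trans ?_
    rw [div_le_div_iff₀ (by linarith) (by nlinarith)]
    have : 6 * ((M + 1) * (M + 2)) ≤ 960 * (M / 96 + 2) * (M + 1) := by nlinarith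
    nlinarith [mul_le_mul_of_nonneg_left this hT0]
  have h4 : ∑ e : Fin 4, ∑ b : Bool, ((x (vert (false, e, b))).2 : ℝ)
      * FF (nucleate (hypercube 4) x (vert (false, e, b)))
      = ∑ e : Fin 4, ∑ b : Bool, nn x e b
        * FF (nucleate (hypercube 4) x (vert (false, e, b))) := rfl
  rw [h4]
  nlinarith

end Pool.Agent.R815.Urn
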